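import Pool.Agent.Zk97.CB.PDefs
import Pool.Agent.Zk97.CB.W

/-!
# Pencils of plane curves, module U: irreducibility and units

Adapted from module W (the file `Zk97/CB/W.lean`): the weights are `(1, 1)`, and the leading form is a form `H d h` whose
dehomogenization `h` is irreducible. It is prime: the kernel of `x ↦ x`, `y ↦ θ x`, `θ` a root of `h`.
-/

set_option autoImplicit false
set_option linter.all false

open Polynomial

namespace Pool.Agent.Zk66.CB

open Pool.Agent.Zk97.CB
open Pool.Agent.Zk97.CB.WW (tau coeff_tau tau_ne_zero wt lf lf_mul wt_mul lf_ne_zero const_of_lf coeff_lf_zero)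

variable {k : Type} [Field k]

/-- the form of degree `d` whose dehomogenization is `h` -/
noncomputable def Hf (d : ℕ) (h : k[X]) : k[X][X] :=
  ∑ i ∈ Finset.range (d + 1), C (C (h.coeff i) * X ^ (d - i)) * X ^ i

lemma Hf_coeff (d : ℕ) (h : k[X]) (i j : ℕ) :
    ((Hf d h).coeff i).coeff j = if i + j = d then h.coeff i else 0 := by
  unfold Hf
  rw [finset_sum_coeff]
  simp only [coeff_C_mul, coeff_X_pow, mul_ite, mul_one, mul_zero]
  rw [Finset.sum_ite_eq (Finset.range (d + 1)) i]
  by_cases hi : i ∈ Finset.range (d + 1)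
  · rw [if_pos hi, coeff_C_mul, coeff_X_pow]
    have := Finset.mem_range.1 hi
    by_cases hij : i + j = d
    · rw [if_pos hij, if_pos (by omega), mul_one]
    · rw [if_neg hij, if_neg (by omega), mul_zero]
  · rw [if_neg hi]
    have : ¬ i < d + 1 := fun h1 => hi (Finset.mem_range.2 h1)
    rw [if_neg (by omega), coeff_zero]

lemma Hf_coeff_d {d : ℕ} {h : k[X]} (hd : h.coeff d = 1) : (Hf d h).coeff d = 1 := by
  ext j
  rw [Hf_coeff, coeff_one]
  by_cases hj : j = 0
  · subst hj
    simp [hd]
  · rw [if_neg (by omega), if_neg hj]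

lemma Hf_coeff_gt {d : ℕ} {h : k[X]} {i : ℕ} (hi : d < i) : (Hf d h).coeff i = 0 := by
  ext j
  rw [Hf_coeff, if_neg (by omega), coeff_zero]

lemma natDegree_of {d : ℕ} {P : k[X][X]} (h1 : P.coeff d = 1) (h2 : ∀ i, d < i → P.coeff i = 0) :
    P.natDegree = d := by
  apply le_antisymm
  · rw [natDegree_le_iff_coeff_eq_zero]
    exact fun i hi => h2 i hi
  · apply le_natDegree_of_ne_zero
    rw [h1]
    exact one_ne_zero

lemma monic_of {d : ℕ} {P : k[X][X]} (h1 : P.coeff d = 1) (h2 : ∀ i, d < i → P.coeff i = 0) : P.Monic := by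
  unfold Monic leadingCoeff
  rw [natDegree_of h1 h2, h1]

lemma top_coeff (m : ℕ) (P : k[X][X]) (i : ℕ) :
    (top m P).coeff i = if i ≤ m then (P.coeff i).coeff (m - i) else 0 := by
  unfold top
  rw [finset_sum_coeff]
  simp only [coeff_C_mul, coeff_X_pow, mul_ite, mul_one, mul_zero]
  rw [Finset.sum_ite_eq (Finset.range (m + 1)) i]
  by_cases hi : i ≤ m
  · rw [if_pos (Finset.mem_range.2 (by omega)), if_pos hi]
  · rw [if_neg (by rw [Finset.mem_range]; omega), if_neg hi]

/-- `x ↦ x`, `y ↦ θ x` -/
noncomputable def psi (h : k[X]) : k[X][X] →+* (AdjoinRoot h)[X] :=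
  eval₂RingHom (mapRingHom (AdjoinRoot.of h)) (C (AdjoinRoot.root h) * X)

lemma psi_monomial (h : k[X]) (i j : ℕ) (c : k) :
    psi h (monomial i (monomial j c)) = monomial (j + i) (AdjoinRoot.of h c * AdjoinRoot.root h ^ i) := by
  simp only [psi, coe_eval₂RingHom, eval₂_monomial, coe_mapRingHom, map_monomial]
  rw [mul_pow, ← C_pow, ← C_mul_X_pow_eq_monomial, ← C_mul_X_pow_eq_monomial, pow_add, C_mul]
  ring

lemma psi_coeff (h : k[X]) (P : k[X][X]) (m : ℕ) : (psi h P).coeff m = AdjoinRoot.mk h (top m P) := by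
  induction P using Polynomial.induction_on' with
  | add p q hp hq =>
    rw [map_add, coeff_add, hp, hq, ← map_add]
    congr 1
    ext i
    rw [coeff_add, top_coeff, top_coeff, top_coeff]
    split_ifs
    · simp
    · simp
  | monomial i a =>
    induction a using Polynomial.induction_on' with
    | add p q hp hq =>
      rw [map_add, map_add, coeff_add, hp, hq, ← map_add]
      congr 1
      ext i'
      rw [coeff_add, top_coeff, top_coeff, top_coeff]
      split_ifs
      · simp
      · simp
    | monomial j c =>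
      rw [psi_monomial, coeff_monomial]
      have h1 : top m (monomial i (monomial j c) : k[X][X]) = if j + i = m then C c * X ^ i else 0 := by
        ext i'
        rw [top_coeff, coeff_monomial]
        by_cases hm : j + i = m
        · rw [if_pos hm, coeff_C_mul, coeff_X_pow]
          by_cases hi : i = i'
          · subst hi
            rw [if_pos (by omega), if_pos rfl, coeff_monomial, if_pos (by omega), if_pos rfl, mul_one]
          · rw [if_neg hi, if_neg (Ne.symm hi), coeff_zero, mul_zero, ite_self]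
        · rw [if_neg hm, coeff_zero]
          by_cases hi : i = i'
          · subst hi
            rw [if_pos rfl, coeff_monomial]
            split_ifs with h2 h3
            · omega
            · rfl
            · rfl
          · rw [if_neg hi, coeff_zero, ite_self]
      rw [h1]
      split_ifs
      · rw [map_mul, map_pow, AdjoinRoot.mk_C, AdjoinRoot.mk_X]
      · rw [map_zero]

lemma top_Hf (d : ℕ) {h : k[X]} (hd : h.natDegree ≤ d) (m : ℕ) : top m (Hf d h) = if m = d then h else 0 := by
  ext i
  rw [top_coeff, Hf_coeff]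
  by_cases hm : m = d
  · subst hm
    rw [if_pos rfl]
    by_cases hi : i ≤ m
    · rw [if_pos hi, if_pos (by omega)]
    · rw [if_neg hi, coeff_eq_zero_of_natDegree_lt (by omega)]
  · rw [if_neg hm, coeff_zero]
    by_cases hi : i ≤ m
    · rw [if_pos hi, if_neg (by omega)]
    · rw [if_neg hi]

lemma psi_Hf (d : ℕ) {h : k[X]} (hd : h.natDegree ≤ d) : psi h (Hf d h) = 0 := by
  ext m
  rw [psi_coeff, top_Hf d hd, coeff_zero]
  split_ifs
  · exact AdjoinRoot.mk_self
  · exact map_zero _

lemma Hf_prime {d : ℕ} {h : k[X]} (hd : h.natDegree = d) (hm : h.Monic) (hirr : Irreducible h) :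
    Prime (Hf d h : k[X][X]) := by
  haveI : Fact (Irreducible h) := ⟨hirr⟩
  have hcd : h.coeff d = 1 := by
    rw [← hd]
    exact hm
  have h1 := Hf_coeff_d hcd
  have h2 : ∀ i, d < i → (Hf d h).coeff i = 0 := fun i hi => Hf_coeff_gt hi
  have hmon := monic_of h1 h2
  have hnd := natDegree_of h1 h2
  have hk : RingHom.ker (psi h) = Ideal.span {(Hf d h : k[X][X])} := by
    apply le_antisymm
    · intro P hP
      rw [RingHom.mem_ker] at hP
      rw [Ideal.mem_span_singleton, ← modByMonic_eq_zero_iff_dvd hmon]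
      have e1 : psi h (P %ₘ Hf d h) = 0 := by
        have := modByMonic_add_div P (Hf d h : k[X][X])
        have e2 : psi h (P %ₘ Hf d h + Hf d h * (P /ₘ Hf d h)) = psi h P := by rw [this]
        rw [map_add, map_mul, psi_Hf d hd.le, zero_mul, add_zero, hP] at e2
        exact e2
      have e3 : ∀ i', d ≤ i' → (P %ₘ (Hf d h : k[X][X])).coeff i' = 0 := by
        intro i' hi'
        apply coeff_eq_zero_of_degree_lt
        refine lt_of_lt_of_le (degree_modByMonic_lt P hmon) ?_
        rw [degree_eq_natDegree hmon.ne_zero, hnd]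
        exact_mod_cast hi'
      have e4 : ∀ m, top m (P %ₘ (Hf d h : k[X][X])) = 0 := by
        intro m
        have e5 := psi_coeff h (P %ₘ Hf d h) m
        rw [e1, coeff_zero] at e5
        have e6 : h ∣ top m (P %ₘ (Hf d h : k[X][X])) := AdjoinRoot.mk_eq_zero.1 e5.symm
        by_contra e7
        have e8 := natDegree_le_of_dvd e6 e7
        have e9 : (top m (P %ₘ (Hf d h : k[X][X]))).natDegree < d := by
          rw [natDegree_lt_iff_degree_lt e7, degree_lt_iff_coeff_zero]
          intro i hi
          rw [top_coeff, e3 i (by exact_mod_cast hi)]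
          simp
        omega
      ext i j
      have e5 := top_coeff (i + j) (P %ₘ (Hf d h : k[X][X])) i
      rw [e4, if_pos (by omega), Nat.add_sub_cancel_left] at e5
      rw [← e5]
      simp
    · rw [Ideal.span_singleton_le_iff_mem, RingHom.mem_ker]
      exact psi_Hf d hd.le
  rw [← Ideal.span_singleton_prime hmon.ne_zero, ← hk]
  exact RingHom.ker_isPrime _

lemma plane_top {d : ℕ} {G : k[X][X]} (hG : IsPlane d G) : (top d G).natDegree = d ∧ (top d G).Monic := by
  have h1 : (top d G).coeff d = 1 := by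
    rw [top_coeff, if_pos le_rfl, Nat.sub_self, hG.2]
    simp
  have h2 : (top d G).natDegree = d := by
    apply le_antisymm
    · rw [natDegree_le_iff_coeff_eq_zero]
      intro i hi
      rw [top_coeff, if_neg (by omega)]
    · apply le_natDegree_of_ne_zero
      rw [h1]
      exact one_ne_zero
  refine ⟨h2, ?_⟩
  unfold Monic leadingCoeff
  rw [h2, h1]

lemma plane_gt {d : ℕ} {G : k[X][X]} (hG : IsPlane d G) (i : ℕ) (hi : d < i) : G.coeff i = 0 := by
  ext j
  by_contra h
  have := hG.1 i j h
  omega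

lemma natDegree_tau_G {d : ℕ} {G : k[X][X]} (hG : IsPlane d G) :
    (tau 1 1 G).coeff d = Hf d (top d G) ∧ (tau 1 1 G).natDegree = d := by
  have h1 : (tau 1 1 G).coeff d = Hf d (top d G) := by
    ext i j
    rw [coeff_tau, Hf_coeff]
    by_cases h : i + j = d
    · rw [if_pos (by omega), if_pos h, top_coeff, if_pos (by omega)]
      congr 1
      omega
    · rw [if_neg (by omega), if_neg h]
  refine ⟨h1, ?_⟩
  apply le_antisymm
  · rw [natDegree_le_iff_coeff_eq_zero]
    intro m hm
    ext i j
    rw [coeff_tau]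
    split_ifs with h
    · by_contra h2
      have := hG.1 i j (by simpa using h2)
      omega
    · simp
  · apply le_natDegree_of_ne_zero
    rw [h1]
    intro h2
    have h3 := Hf_coeff_d (d := d) (h := top d G) (by
      have := (plane_top hG).2
      unfold Monic leadingCoeff at this
      rwa [(plane_top hG).1] at this)
    rw [h2, coeff_zero] at h3
    exact zero_ne_one h3

lemma lf_G {d : ℕ} {G : k[X][X]} (hG : IsPlane d G) : lf 1 1 G = Hf d (top d G) := by
  obtain ⟨h1, h2⟩ := natDegree_tau_G hG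
  unfold lf
  rw [leadingCoeff, h2, h1]

lemma wt_G {d : ℕ} {G : k[X][X]} (hG : IsPlane d G) : wt 1 1 G = d := (natDegree_tau_G hG).2

/-- reduced polynomials have no leading form divisible by the form -/
lemma not_dvd_lf {d : ℕ} {h : k[X]} (hd : (Hf d h).natDegree = d) (hd0 : 0 < d) {P : k[X][X]} (hP : P ≠ 0)
    (hPl : ∀ i, d ≤ i → P.coeff i = 0) : ¬ Hf d h ∣ lf 1 1 P := by
  intro h0
  have h1 : (lf 1 1 P).natDegree < d := by
    rw [natDegree_lt_iff_degree_lt (lf_ne_zero 1 1 hP), degree_lt_iff_coeff_zero]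
    intro m hm
    exact coeff_lf_zero (hPl m (by exact_mod_cast hm))
  have h2 := natDegree_le_of_dvd h0 (lf_ne_zero 1 1 hP)
  omega

/-- **Module U.** -/
theorem t_U : StU := by
  intro k _ d hd G hG hirr
  obtain ⟨ht1, ht2⟩ := plane_top hG
  have hprime : Prime (Hf d (top d G) : k[X][X]) := Hf_prime ht1 ht2 hirr
  have hcd : (top d G).coeff d = 1 := by
    have := ht2
    unfold Monic leadingCoeff at this
    rwa [ht1] at this
  have hHd : (Hf d (top d G) : k[X][X]).natDegree = d :=
    natDegree_of (Hf_coeff_d hcd) (fun i hi => Hf_coeff_gt hi)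
  have hGm : G.Monic := monic_of hG.2 (plane_gt hG)
  have hGd : G.natDegree = d := natDegree_of hG.2 (plane_gt hG)
  have hG0 : G ≠ 0 := hGm.ne_zero
  refine ⟨⟨?_, ?_⟩, ?_⟩
  · intro hu
    have := natDegree_eq_zero_of_isUnit hu
    omega
  · intro P Q hPQ
    have h1 : Hf d (top d G) = lf 1 1 P * lf 1 1 Q := by
      rw [← lf_mul, ← hPQ, lf_G hG]
    rcases hprime.irreducible.isUnit_or_isUnit h1 with h | h
    · left
      obtain ⟨c, hc, rfl⟩ := const_of_lf one_pos one_pos h
      exact ((isUnit_iff_ne_zero.2 hc).map C).map C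
    · right
      obtain ⟨c, hc, rfl⟩ := const_of_lf one_pos one_pos h
      exact ((isUnit_iff_ne_zero.2 hc).map C).map C
  · intro u hu
    obtain ⟨z, hz⟩ := hu.exists_right_inv
    obtain ⟨U₀, rfl⟩ := AdjoinRoot.mk_surjective u
    obtain ⟨Z₀, rfl⟩ := AdjoinRoot.mk_surjective z
    have hred : ∀ P : k[X][X], AdjoinRoot.mk G P = AdjoinRoot.mk G (P %ₘ G) ∧
        ∀ i, d ≤ i → (P %ₘ G).coeff i = 0 := by
      intro P
      constructor
      · rw [AdjoinRoot.mk_eq_mk]
        refine ⟨P /ₘ G, ?_⟩
        have := modByMonic_add_div P G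
        linear_combination -this
      · intro i hi
        apply coeff_eq_zero_of_degree_lt
        refine lt_of_lt_of_le (degree_modByMonic_lt P hGm) ?_
        rw [degree_eq_natDegree hG0, hGd]
        exact_mod_cast hi
    obtain ⟨hU1, hU2⟩ := hred U₀
    obtain ⟨hZ1, hZ2⟩ := hred Z₀
    rw [hU1] at hz ⊢
    rw [hZ1] at hz
    set U := U₀ %ₘ G
    set Z := Z₀ %ₘ G
    rw [← map_mul, ← map_one (AdjoinRoot.mk G), AdjoinRoot.mk_eq_mk] at hz
    obtain ⟨Q, hQ⟩ := hz
    have hUZ : U * Z = G * Q + 1 := by linear_combination hQ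
    have hQ0 : Q = 0 := by
      by_contra hQ0
      have hne : G * Q ≠ 0 := mul_ne_zero hG0 hQ0
      have hw : 0 < wt 1 1 (G * Q) := by
        rw [wt_mul 1 1 hG0 hQ0, wt_G hG]
        omega
      have h1 : lf 1 1 (U * Z) = Hf d (top d G) * lf 1 1 Q := by
        rw [hUZ, ← lf_G hG, ← lf_mul]
        unfold lf
        rw [map_add, map_one]
        apply leadingCoeff_add_of_degree_lt'
        rw [degree_one, degree_eq_natDegree (tau_ne_zero 1 1 hne)]
        exact_mod_cast hw
      have hUZ0 : U * Z ≠ 0 := by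
        intro h
        rw [h] at h1
        have : lf 1 1 (0 : k[X][X]) = 0 := by simp [lf]
        rw [this] at h1
        exact mul_ne_zero hprime.ne_zero (lf_ne_zero 1 1 hQ0) h1.symm
      have hU0 : U ≠ 0 := left_ne_zero_of_mul hUZ0
      have hZ0 : Z ≠ 0 := right_ne_zero_of_mul hUZ0
      rw [lf_mul] at h1
      rcases hprime.dvd_or_dvd ⟨_, h1⟩ with h | h
      · exact not_dvd_lf hHd hd hU0 hU2 h
      · exact not_dvd_lf hHd hd hZ0 hZ2 h
    rw [hQ0, mul_zero, zero_add] at hUZ
    have hUu : IsUnit U := IsUnit.of_mul_eq_one _ hUZ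
    obtain ⟨a, ha, h1⟩ := Polynomial.isUnit_iff.1 hUu
    obtain ⟨c, hc, h2⟩ := Polynomial.isUnit_iff.1 ha
    refine ⟨c, hc.ne_zero, ?_⟩
    rw [← h1, ← h2]
    rfl

end Pool.Agent.Zk66.CB
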