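import Mathlib

set_option autoImplicit false
set_option linter.all false

open Polynomial

namespace Pool.Agent.Zk66.CB

theorem natDegree_det_le {F ι : Type} [CommRing F] [Fintype ι] [DecidableEq ι]
    (M : Matrix ι ι F[X]) {d : ℕ} (h : ∀ i j, (M i j).natDegree ≤ d) :
    M.det.natDegree ≤ Fintype.card ι * d := by
  rw [Matrix.det_apply']
  refine natDegree_sum_le_of_forall_le _ _ (fun σ _ => ?_)
  refine natDegree_mul_le.trans ?_
  rw [natDegree_intCast, zero_add]
  refine (natDegree_prod_le _ _).trans ?_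
  refine (Finset.sum_le_card_nsmul _ _ d (fun i _ => h _ _)).trans ?_
  rw [smul_eq_mul, Finset.card_univ]

theorem natDegree_resultant_le {F : Type} [CommRing F] (f g : F[X][X]) (a b : ℕ) {d : ℕ}
    (hf : ∀ i, (f.coeff i).natDegree ≤ d) (hg : ∀ i, (g.coeff i).natDegree ≤ d) :
    (resultant f g a b).natDegree ≤ (a + b) * d := by
  have h1 := natDegree_det_le (sylvester f g a b) (d := d) (by
    intro i j
    unfold sylvester
    rw [Matrix.of_apply]
    refine Fin.addCases (fun j₁ => ?_) (fun j₁ => ?_) j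
    · rw [Fin.addCases_left]
      split_ifs
      · exact hg _
      · simp
    · rw [Fin.addCases_right]
      split_ifs
      · exact hf _
      · simp)
  rw [Fintype.card_fin] at h1
  exact h1

/-- a nonzero polynomial in `x` in the ideal generated by `G` and `a` -/
theorem exists_R {F : Type} [Field F] {l n : ℕ} {G a : F[X][X]} (hmon : G.Monic)
    (hdeg : G.natDegree = l) (hirr : Irreducible G)
    (hG : ∀ i, (G.coeff i).natDegree ≤ n) (ha : ∀ i, (a.coeff i).natDegree ≤ n)
    (hal : a.natDegree < l) (ha0 : a ≠ 0) :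
    ∃ (A B : F[X][X]) (D : F[X]), A * G + B * a = C D ∧ D ≠ 0 ∧
      D.natDegree ≤ (l + l) * n := by
  obtain ⟨p, q, -, -, e⟩ := exists_mul_add_mul_eq_C_resultant G a (m := l) (n := a.natDegree)
    hdeg.le le_rfl (Or.inl (by omega))
  refine ⟨p, q, resultant G a l a.natDegree, ?_, ?_, ?_⟩
  · rw [mul_comm p, mul_comm q, e]
  · intro h0
    have hinj : Function.Injective (algebraMap F[X] (RatFunc F)) :=
      IsFractionRing.injective F[X] (RatFunc F)
    have h1 := resultant_map_map G a l a.natDegree (algebraMap F[X] (RatFunc F))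
    rw [h0, map_zero] at h1
    have h2 : (G.map (algebraMap F[X] (RatFunc F))).natDegree = l := by
      rw [natDegree_map_eq_of_injective hinj, hdeg]
    have h3 : (a.map (algebraMap F[X] (RatFunc F))).natDegree = a.natDegree := by
      rw [natDegree_map_eq_of_injective hinj]
    have h4 : resultant (G.map (algebraMap F[X] (RatFunc F)))
        (a.map (algebraMap F[X] (RatFunc F))) = 0 := by
      rw [h2, h3]
      exact h1
    rw [resultant_eq_zero_iff] at h4
    apply h4.2
    have hirrK : Irreducible (G.map (algebraMap F[X] (RatFunc F))) :=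
      (hmon.irreducible_iff_irreducible_map_fraction_map (K := RatFunc F)).1 hirr
    rw [hirrK.coprime_iff_not_dvd]
    intro hdvd
    have h5 : a.map (algebraMap F[X] (RatFunc F)) ≠ 0 := by
      rw [Ne, Polynomial.map_eq_zero_iff hinj]
      exact ha0
    have h6 := natDegree_le_of_dvd hdvd h5
    rw [h2, h3] at h6
    omega
  · refine (natDegree_resultant_le _ _ _ _ hG ha).trans ?_
    exact Nat.mul_le_mul_right n (by omega)

/-- two curves, one monic of degree `l` in `y` and irreducible, the other of smaller degree in `y`,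
have few common points -/
theorem t_B0 : ∀ l n : ℕ, ∃ c : ℕ,
  ∀ (F : Type) [Field F] [Finite F] (G a : F[X][X]), G.Monic → G.natDegree = l → Irreducible G →
    (∀ i, (G.coeff i).natDegree ≤ n) → (∀ i, (a.coeff i).natDegree ≤ n) → a.natDegree < l → a ≠ 0 →
    Nat.card {P : F × F // evalEval P.1 P.2 G = 0 ∧ evalEval P.1 P.2 a = 0} ≤ c := by
  classical
  intro l n
  refine ⟨((l + l) * n) * l, ?_⟩
  intro F _ _ G a hmon hdeg hirr hG ha hal ha0
  obtain ⟨A, B, D, e, hD0, hDd⟩ := exists_R hmon hdeg hirr hG ha hal ha0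
  haveI : Fintype F := Fintype.ofFinite F
  -- the set of points as a finset
  let S : Finset F := D.roots.toFinset
  let T : F → Finset F := fun x => (G.map (evalRingHom x)).roots.toFinset
  have hS : S.card ≤ (l + l) * n :=
    (Multiset.toFinset_card_le _).trans ((card_roots' D).trans hDd)
  have hT : ∀ x, (T x).card ≤ l := fun x => by
    refine (Multiset.toFinset_card_le _).trans ((card_roots' _).trans ?_)
    exact (natDegree_map_le).trans hdeg.le
  have hsub : ∀ P : {P : F × F // evalEval P.1 P.2 G = 0 ∧ evalEval P.1 P.2 a = 0},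
      (⟨P.1.1, P.1.2⟩ : (_ : F) × F) ∈ S.sigma T := by
    rintro ⟨⟨x, y⟩, h1, h2⟩
    rw [Finset.mem_sigma]
    refine ⟨?_, ?_⟩
    · show x ∈ D.roots.toFinset
      rw [Multiset.mem_toFinset, mem_roots hD0, IsRoot.def]
      have h3 := congrArg (fun P : F[X][X] => evalEval x y P) e
      simp only [evalEval_add, evalEval_mul] at h3
      rw [show evalEval x y G = 0 from h1, show evalEval x y a = 0 from h2, mul_zero, mul_zero,
        add_zero, evalEval_C] at h3
      exact h3.symm
    · show y ∈ (G.map (evalRingHom x)).roots.toFinset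
      rw [Multiset.mem_toFinset, mem_roots (hmon.map _).ne_zero, IsRoot.def, map_evalRingHom_eval]
      exact h1
  have hc : Nat.card {P : F × F // evalEval P.1 P.2 G = 0 ∧ evalEval P.1 P.2 a = 0} ≤
      Nat.card (S.sigma T) := by
    refine Nat.card_le_card_of_injective (fun P => ⟨⟨P.1.1, P.1.2⟩, hsub P⟩) ?_
    rintro ⟨⟨x, y⟩, h1⟩ ⟨⟨x', y'⟩, h2⟩ h
    simp only [Subtype.mk.injEq, Sigma.mk.injEq, heq_eq_eq] at h
    obtain ⟨rfl, rfl⟩ := h
    rfl
  refine hc.trans ?_
  rw [Nat.card_eq_fintype_card, Fintype.card_coe, Finset.card_sigma]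
  calc ∑ x ∈ S, (T x).card ≤ ∑ x ∈ S, l := Finset.sum_le_sum fun x _ => hT x
    _ = S.card * l := by rw [Finset.sum_const, smul_eq_mul]
    _ ≤ ((l + l) * n) * l := Nat.mul_le_mul_right l hS

end Pool.Agent.Zk66.CB
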