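import Pool.Agent.Zk97.CB.GDefs
import Pool.Agent.Zk66.CB.B0

set_option autoImplicit false
set_option linter.all false

open Polynomial

namespace Pool.Agent.Zk66.CB

theorem t_B : Pool.Agent.Zk97.CB.StB := by
  intro l n
  exact t_B0 l n

end Pool.Agent.Zk66.CB
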